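import Mathlib
import Pool.Agent.Helper3_PQX.Stmts
import Pool.Agent.Helper6_PPX.Hgt

/-! # Squad PQX: module HGB (copy of `Helper6_PPZ/Hga.lean`, with the pattern as hypothesis) -/

set_option autoImplicit false

universe u

namespace Pool.Agent.PQX.H39

open MvPolynomial PGH PRS.H47H PPX PPX.H6 PPZ

/-- HGB -/
theorem hgb : HgbStmt.{u} := by
  classical
  intro k E _ _ _ _ _ _ _ D hD cp sc hB N₁ N₂ R x z a b c F hN₁ hN₂ ha hb hx hz hPa hF hF0
  have hDk : ∀ κ : k, D (algebraMap k E κ) = 0 := fun κ => (hD _).2 ⟨κ, rfl⟩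
  have hC0 : 0 ≤ ∑ P ∈ sc, (cp P : ℤ) := Finset.sum_nonneg fun P _ => by positivity
  have hB0 : 0 ≤ ∑ r, 2 * (ht k (c r) : ℤ) := Finset.sum_nonneg fun P _ => by positivity
  suffices hmain : (ht k x : ℤ) + ht k z ≤
      10 * ∑ P ∈ sc, (cp P : ℤ) + 10 * ∑ r, 2 * (ht k (c r) : ℤ) by
    exact_mod_cast hmain
  by_cases hDx : D x = 0
  · obtain ⟨κ, hκ⟩ := (hD x).1 hDx
    have hx0 : ht k x = 0 := by rw [← hκ, ht_const]
    by_cases hDz : D z = 0
    · obtain ⟨κ', hκ'⟩ := (hD z).1 hDz
      have hz0 : ht k z = 0 := by rw [← hκ', ht_const]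
      rw [hx0, hz0, Nat.cast_zero]
      linarith
    · have h1 := one_side D cp sc hB z b c hN₂ hb hz (fun j => hDk _) hDz (by
        intro P hc j hj
        obtain ⟨i, hi⟩ := (hPa P hc).2 j hj (by rw [← hκ]; exact P.ge_const κ)
        rw [← hκ, ← map_sub] at hi
        refine P.not_ge_one_const (sub_ne_zero.2 ?_) hi
        intro h7
        apply hx i
        rw [← hκ, h7])
      rw [hx0, Nat.cast_zero]
      linarith
  · by_cases hDz : D z = 0
    · obtain ⟨κ, hκ⟩ := (hD z).1 hDz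
      have hz0 : ht k z = 0 := by rw [← hκ, ht_const]
      have h1 := one_side D cp sc hB x a c hN₁ ha hx (fun j => hDk _) hDx (by
        intro P hc i hi
        obtain ⟨j, hj⟩ := (hPa P hc).1 i hi (by rw [← hκ]; exact P.ge_const κ)
        rw [← hκ, ← map_sub] at hj
        refine P.not_ge_one_const (sub_ne_zero.2 ?_) hj
        intro h7
        apply hz j
        rw [← hκ, h7])
      rw [hz0, Nat.cast_zero]
      linarith
    · obtain ⟨s, hs⟩ := exists_big (L := k) c
      set bd := s.filter (fun P => ∃ r, P.ord (c r) ≠ 0) with hbd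
      have hbd0 : ∀ P ∉ bd, ∀ r, P.ord (c r) = 0 := by
        intro P hP r
        by_contra h0
        apply hP
        rw [hbd, Finset.mem_filter]
        refine ⟨?_, r, h0⟩
        by_contra h1
        exact h0 (hs r P h1)
      have hcard := card_bad c bd (fun P hP => (Finset.mem_filter.1 hP).2)
      have h1 := hF D cp sc bd hD hB x z hDx hDz
        ⟨fun P hP _ => (hPa P (hbd0 P hP)).1, fun P hP _ => (hPa P (hbd0 P hP)).2⟩ hF0
      have h2 : (ht k x : ℤ) + ht k z ≤ ∑ P ∈ sc, (cp P : ℤ) + bd.card := by exact_mod_cast h1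
      linarith

end Pool.Agent.PQX.H39
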